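import Pool.Agent.H58.PWS.Gen

/-!
# Few numbers have a large common divisor with an iterate of the sum of divisors
-/

set_option autoImplicit false

namespace Pool.PWS

open ArithmeticFunction Finset Pool.MKP

/-- the generating sets: small elements and the elements of `T` on level `0` -/
def Gt (S : Finset (ℕ × ℕ)) (T : Finset ℕ) : Finset (ℕ × ℕ) := S ∪ T.image fun p => (0, p)

/-- the primes of `n` whose power in `n` does not divide `b`; these are the primes of the
denominator of `b / n` -/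
def Tn (n b : ℕ) : Finset ℕ := n.primeFactors.filter fun p => ¬ p ^ n.factorization p ∣ b

/-- the primes of `n` whose power does not divide `b` have a small product -/
lemma defect {n b : ℕ} (hn : 1 ≤ n) {H : ℝ} (h : (n : ℝ) ≤ H * Nat.gcd n b) :
    1 ≤ ∏ p ∈ Tn n b, p ∧ ((∏ p ∈ Tn n b, p : ℕ) : ℝ) ≤ H := by
  classical
  have hTp : ∀ p ∈ Tn n b, p.Prime := fun p hp =>
    Nat.prime_of_mem_primeFactors (Finset.mem_filter.1 hp).1
  refine ⟨Finset.prod_pos fun p hp => (hTp p hp).pos, ?_⟩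
  obtain ⟨q, hq⟩ := Nat.gcd_dvd_left n b
  have hg : 0 < Nat.gcd n b := Nat.gcd_pos_of_pos_left _ hn
  have hq0 : 0 < q := by
    rcases Nat.eq_zero_or_pos q with h | h
    · rw [h, mul_zero] at hq; omega
    · exact h
  have hdvd : ∏ p ∈ Tn n b, p ∣ q := by
    apply Finset.prod_primes_dvd _ (fun p hp => (hTp p hp).prime)
    intro p hp
    by_contra hpq
    have h1 : p ^ n.factorization p ∣ Nat.gcd n b * q := by
      rw [← hq]; exact Nat.ordProj_dvd _ _
    have h2 : (p ^ n.factorization p).Coprime q :=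
      Nat.Coprime.pow_left _ ((hTp p hp).coprime_iff_not_dvd.2 hpq)
    have h3 := h2.dvd_of_dvd_mul_right h1
    exact (Finset.mem_filter.1 hp).2 (h3.trans (Nat.gcd_dvd_right n b))
  have h1 : ((∏ p ∈ Tn n b, p : ℕ) : ℝ) ≤ q := by exact_mod_cast Nat.le_of_dvd hq0 hdvd
  refine h1.trans ?_
  have hg' : (0 : ℝ) < Nat.gcd n b := by exact_mod_cast hg
  have h2 : (n : ℝ) = Nat.gcd n b * q := by exact_mod_cast hq
  rw [h2] at h
  have h3 : (q : ℝ) * Nat.gcd n b ≤ H * Nat.gcd n b := by linarith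
  exact le_of_mul_le_mul_right h3 hg'

/-- the set `Tn` depends only on the quotient -/
lemma Tn_congr {n n' b b' : ℕ} (hn : n ≠ 0) (hn' : n' ≠ 0) (hb : b ≠ 0) (hb' : b' ≠ 0)
    (h : b * n' = b' * n) : Tn n b ⊆ Tn n' b' := by
  intro p hp
  unfold Tn at hp ⊢
  rw [Finset.mem_filter] at hp ⊢
  have hpp := Nat.prime_of_mem_primeFactors hp.1
  have h1 : ¬ n.factorization p ≤ b.factorization p := by
    rw [← hpp.pow_dvd_iff_le_factorization hb]
    exact hp.2
  have h2 : b.factorization p + n'.factorization p = b'.factorization p + n.factorization p := by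
    have h3 : (b * n').factorization p = (b' * n).factorization p := by rw [h]
    rw [Nat.factorization_mul hb hn', Nat.factorization_mul hb' hn] at h3
    exact h3
  have h4 : ¬ n'.factorization p ≤ b'.factorization p := by omega
  refine ⟨?_, ?_⟩
  · rw [← Nat.support_factorization, Finsupp.mem_support_iff]
    omega
  · rw [hpp.pow_dvd_iff_le_factorization hb']
    exact h4

lemma sqrt_le_div {L : ℕ} (hL : 3 ≤ L) : Real.sqrt L ≤ 2 * ((L : ℝ) / Real.log L) := by
  have hl := one_le_log hL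
  have hL3 : (3 : ℝ) ≤ L := by exact_mod_cast hL
  have h1 := Real.log_le_rpow_div (x := (L : ℝ)) (Nat.cast_nonneg _)
    (show (0 : ℝ) < 1 / 2 by norm_num)
  rw [← Real.sqrt_eq_rpow] at h1
  have h2 : Real.log L ≤ 2 * Real.sqrt L := by linarith
  rw [mul_div_assoc', le_div_iff₀ (by linarith)]
  have h3 : Real.sqrt L * Real.sqrt L = L := Real.mul_self_sqrt (by linarith)
  have h4 : 0 ≤ Real.sqrt L := Real.sqrt_nonneg _
  nlinarith

/-- the bound in terms of `L`, for a given set of primes of the denominator -/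
theorem linT (m N : ℕ) (hm : 1 ≤ m) (hN : 1 ≤ N) (T : Finset ℕ) :
    (((Icc 1 N).filter fun n : ℕ => Tn n (it m n) = T).card : ℝ)
      ≤ Real.exp ((43 * m + 3 * m ^ 2) * (LL m N / Real.log (LL m N))) := by
  classical
  have hL : 3 ≤ LL m N := three_le_LL hm
  have hX := X_le m N
  have hCls := card_Cls_le m N hm
  obtain ⟨L, hLd⟩ : ∃ L, L = LL m N := ⟨_, rfl⟩
  rw [← hLd] at hL hX hCls ⊢
  have hl := one_le_log hL
  have hL3 : (3 : ℝ) ≤ L := by exact_mod_cast hL
  have hsA := sqrt_le_div hL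
  obtain ⟨A, hA⟩ : ∃ A : ℝ, A = L / Real.log L := ⟨_, rfl⟩
  rw [← hA] at hsA hCls ⊢
  have hm1 : (1 : ℝ) ≤ m := by exact_mod_cast hm
  have hs1 : 1 ≤ Real.sqrt L := by
    rw [show (1 : ℝ) = Real.sqrt 1 by rw [Real.sqrt_one]]
    exact Real.sqrt_le_sqrt (by linarith)
  have hA2 : 1 / 2 ≤ A := by linarith
  obtain ⟨Y, hY⟩ : ∃ Y : ℕ, Y = ⌈3 * m * A⌉₊ := ⟨_, rfl⟩
  have hY1 : 3 * m * A ≤ Y := by rw [hY]; exact Nat.le_ceil _
  have hY2 : (Y : ℝ) ≤ 3 * m * A + 1 := by
    rw [hY]; exact (Nat.ceil_lt_add_one (by positivity)).le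
  have hmA : A ≤ m * A := by nlinarith
  have hYs : Real.sqrt L ≤ Y := by linarith
  have hYpos : 1 ≤ Y := by
    have : (1 : ℝ) ≤ Y := by linarith
    exact_mod_cast this
  set I : Finset (Finset (ℕ × ℕ)) := (range m ×ˢ Icc 1 Y).powerset with hI
  have step1 : (((Icc 1 N).filter fun n : ℕ => Tn n (it m n) = T).card : ℝ) ≤
      ∑ x ∈ I, ((Cls m N (Gt x T)).card : ℝ) := by
    apply card_le_sum
    intro n hn
    rw [Finset.mem_filter, Finset.mem_Icc] at hn
    obtain ⟨⟨hn1, hnN⟩, hnT⟩ := hn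
    set S : Finset (ℕ × ℕ) := (range m).biUnion fun i =>
      ((it i n).primeFactors.filter fun z => z ≤ Y).image fun z => (i, z) with hS
    have hSm : ∀ i z, (i, z) ∈ S ↔ i < m ∧ z ∈ (it i n).primeFactors ∧ z ≤ Y := by
      intro i z
      rw [hS, Finset.mem_biUnion]
      constructor
      · rintro ⟨j, hj, h⟩
        rw [Finset.mem_image] at h
        obtain ⟨w, hw, h⟩ := h
        rw [Prod.mk.injEq] at h
        obtain ⟨rfl, rfl⟩ := h
        exact ⟨Finset.mem_range.1 hj, Finset.mem_filter.1 hw⟩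
      · rintro ⟨h1, h2⟩
        exact ⟨i, Finset.mem_range.2 h1, Finset.mem_image.2 ⟨z, Finset.mem_filter.2 h2, rfl⟩⟩
    refine ⟨S, ?_, ?_⟩
    · rw [hI, Finset.mem_powerset]
      rintro ⟨i, z⟩ h
      rw [hSm] at h
      rw [Finset.mem_product, Finset.mem_range, Finset.mem_Icc]
      exact ⟨h.1, (Nat.prime_of_mem_primeFactors h.2.1).pos, h.2.2⟩
    · have hGm : ∀ i z, (i, z) ∈ Gt S T ↔ (i, z) ∈ S ∨ (i = 0 ∧ z ∈ T) := by
        intro i z
        unfold Gt
        rw [Finset.mem_union, Finset.mem_image]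
        constructor
        · rintro (h | ⟨w, hw, h⟩)
          · exact Or.inl h
          · rw [Prod.mk.injEq] at h
            obtain ⟨rfl, rfl⟩ := h
            exact Or.inr ⟨rfl, hw⟩
        · rintro (h | ⟨rfl, h⟩)
          · exact Or.inl h
          · exact Or.inr ⟨z, h, rfl⟩
      unfold Cls
      rw [Finset.mem_filter, Finset.mem_Icc]
      refine ⟨⟨hn1, hnN⟩, ?_, ?_⟩
      · rintro ⟨i, z⟩ h
        rw [hGm] at h
        unfold Amb
        rw [Finset.mem_biUnion]
        rcases h with h | ⟨rfl, h⟩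
        · rw [hSm] at h
          refine ⟨i, Finset.mem_range.2 h.1, Finset.mem_image.2 ⟨z, ?_, rfl⟩⟩
          exact Finset.mem_union_left _ h.2.1
        · refine ⟨0, Finset.mem_range.2 hm, Finset.mem_image.2 ⟨z, ?_, rfl⟩⟩
          apply Finset.mem_union_left
          rw [it_zero]
          rw [← hnT] at h
          exact (Finset.mem_filter.1 h).1
      · apply gen_small m n Y (2 * A) hm hn1 hYpos
        · intro i hi
          have h1 : (it i n) ≤ 2 ^ L := by
            refine (it_le hnN i).trans (le_trans ?_ hX)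
            exact Nat.pow_le_pow_right hN (Nat.pow_le_pow_right (by norm_num) hi.le)
          have h2 := card_big hL (it_pos hn1 i) h1
          rw [← hA] at h2
          refine le_trans ?_ h2
          have h3 : ((it i n).primeFactors.filter fun z => Y < z) ⊆
              ((it i n).primeFactors.filter fun z : ℕ => Real.sqrt L < (z : ℝ)) := by
            intro z hz
            rw [Finset.mem_filter] at hz ⊢
            refine ⟨hz.1, lt_of_le_of_lt hYs ?_⟩
            exact_mod_cast hz.2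
          exact_mod_cast Finset.card_le_card h3
        · linarith
        · intro i hi z hz hzY
          rw [hGm]
          exact Or.inl ((hSm i z).2 ⟨hi, hz, hzY⟩)
        · intro p hp hpG
          by_contra h
          apply hpG
          rw [hGm, ← hnT]
          exact Or.inr ⟨rfl, Finset.mem_filter.2 ⟨hp, h⟩⟩
  have step2 : ∑ x ∈ I, ((Cls m N (Gt x T)).card : ℝ) ≤ I.card * Real.exp (41 * m * A) := by
    calc ∑ x ∈ I, ((Cls m N (Gt x T)).card : ℝ) ≤ ∑ _x ∈ I, Real.exp (41 * m * A) :=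
          Finset.sum_le_sum fun x _ => hCls _
      _ = I.card * Real.exp (41 * m * A) := by rw [Finset.sum_const, nsmul_eq_mul]
  have step3 : (I.card : ℝ) ≤ Real.exp ((2 * m + 3 * m ^ 2) * A) := by
    rw [hI, Finset.card_powerset, Finset.card_product, Finset.card_range, Nat.card_Icc]
    push_cast [Nat.add_sub_cancel]
    have h2 : (2 : ℝ) ≤ Real.exp 1 := by
      have := Real.add_one_le_exp (1 : ℝ)
      linarith
    calc (2 : ℝ) ^ (m * Y) ≤ Real.exp 1 ^ (m * Y) := pow_le_pow_left₀ (by norm_num) h2 _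
      _ = Real.exp (m * Y) := by rw [← Real.exp_nat_mul]; push_cast; ring_nf
      _ ≤ Real.exp ((2 * m + 3 * m ^ 2) * A) := by
          apply Real.exp_le_exp.2
          nlinarith
  calc _ ≤ ∑ x ∈ I, ((Cls m N (Gt x T)).card : ℝ) := step1
    _ ≤ I.card * Real.exp (41 * m * A) := step2
    _ ≤ Real.exp ((2 * m + 3 * m ^ 2) * A) * Real.exp (41 * m * A) :=
        mul_le_mul_of_nonneg_right step3 (Real.exp_pos _).le
    _ = _ := by
        rw [← Real.exp_add]
        congr 1
        ring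

/-- the bound in terms of `N` -/
theorem wirsing_T (m N : ℕ) (hm : 1 ≤ m) (hN : 3 ≤ N) (T : Finset ℕ) :
    (((Icc 1 N).filter fun n : ℕ => Tn n (it m n) = T).card : ℝ)
      ≤ Real.exp (368 * m ^ 2 * 2 ^ m * (Real.log N / Real.log (Real.log N))) := by
  have hm1 : (1 : ℝ) ≤ m := by exact_mod_cast hm
  refine (linT m N hm (by omega) T).trans ?_
  apply Real.exp_le_exp.2
  have h1 := convert m N hm hN
  have hN3 : (3 : ℝ) ≤ N := by exact_mod_cast hN
  have he := Real.exp_one_lt_d9
  have hlog1 : 1 < Real.log N := by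
    rw [Real.lt_log_iff_exp_lt (by linarith)]
    linarith
  have hll : 0 < Real.log (Real.log N) := Real.log_pos hlog1
  have h2 : 0 ≤ Real.log N / Real.log (Real.log N) := by positivity
  calc (43 * (m : ℝ) + 3 * m ^ 2) * (LL m N / Real.log (LL m N))
      ≤ (43 * (m : ℝ) + 3 * m ^ 2) *
        (2 ^ (m + 3) * (Real.log N / Real.log (Real.log N))) :=
        mul_le_mul_of_nonneg_left h1 (by positivity)
    _ = (43 * (m : ℝ) + 3 * m ^ 2) * (8 * 2 ^ m * (Real.log N / Real.log (Real.log N))) := by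
        rw [pow_add]; ring
    _ ≤ (46 * (m : ℝ) ^ 2) * (8 * 2 ^ m * (Real.log N / Real.log (Real.log N))) := by
        apply mul_le_mul_of_nonneg_right _ (by positivity)
        nlinarith
    _ = _ := by ring

/-- Wirsing's theorem for iterates: values of `σ^m n / n` -/
theorem wirsing_value (m N : ℕ) (hm : 1 ≤ m) (hN : 3 ≤ N) (α : ℝ) :
    (((Icc 1 N).filter fun n : ℕ => (it m n : ℝ) = α * n).card : ℝ)
      ≤ Real.exp (368 * m ^ 2 * 2 ^ m * (Real.log N / Real.log (Real.log N))) := by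
  classical
  rcases ((Icc 1 N).filter fun n : ℕ => (it m n : ℝ) = α * n).eq_empty_or_nonempty with h | h
  · rw [h, Finset.card_empty, Nat.cast_zero]
    exact (Real.exp_pos _).le
  obtain ⟨n', hn'⟩ := h
  rw [Finset.mem_filter, Finset.mem_Icc] at hn'
  refine le_trans ?_ (wirsing_T m N hm hN (Tn n' (it m n')))
  have hsub : ((Icc 1 N).filter fun n : ℕ => (it m n : ℝ) = α * n) ⊆
      ((Icc 1 N).filter fun n : ℕ => Tn n (it m n) = Tn n' (it m n')) := by
    intro n hn
    rw [Finset.mem_filter, Finset.mem_Icc] at hn ⊢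
    refine ⟨hn.1, ?_⟩
    have h1 : it m n * n' = it m n' * n := by
      have : (it m n : ℝ) * n' = (it m n' : ℝ) * n := by rw [hn.2, hn'.2]; ring
      exact_mod_cast this
    have a1 : n ≠ 0 := by omega
    have a2 : n' ≠ 0 := by omega
    have a3 : it m n ≠ 0 := (it_pos hn.1.1 m).ne'
    have a4 : it m n' ≠ 0 := (it_pos hn'.1.1 m).ne'
    exact Finset.Subset.antisymm (Tn_congr a1 a2 a3 a4 h1) (Tn_congr a2 a1 a4 a3 h1.symm)
  exact_mod_cast Finset.card_le_card hsub

/-- large common divisors of `n` and `σ^m n` -/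
theorem wirsing_gcd (m N : ℕ) (hm : 1 ≤ m) (hN : 3 ≤ N) (H : ℝ) (hH : 1 ≤ H) :
    (((Icc 1 N).filter fun n : ℕ => (n : ℝ) ≤ H * Nat.gcd n (it m n)).card : ℝ)
      ≤ H * Real.exp (368 * m ^ 2 * 2 ^ m * (Real.log N / Real.log (Real.log N))) := by
  classical
  have step1 : (((Icc 1 N).filter fun n : ℕ => (n : ℝ) ≤ H * Nat.gcd n (it m n)).card : ℝ) ≤
      ∑ t ∈ Icc 1 ⌊H⌋₊,
        (((Icc 1 N).filter fun n : ℕ => Tn n (it m n) = t.primeFactors).card : ℝ) := by
    apply card_le_sum
    intro n hn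
    rw [Finset.mem_filter, Finset.mem_Icc] at hn
    obtain ⟨ht1, htH⟩ := defect hn.1.1 hn.2
    have hTp : ∀ p ∈ Tn n (it m n), p.Prime := fun p hp =>
      Nat.prime_of_mem_primeFactors (Finset.mem_filter.1 hp).1
    refine ⟨∏ p ∈ Tn n (it m n), p, ?_, ?_⟩
    · rw [Finset.mem_Icc]
      exact ⟨ht1, Nat.le_floor htH⟩
    · rw [Finset.mem_filter, Finset.mem_Icc]
      exact ⟨hn.1, (Nat.primeFactors_prod hTp).symm⟩
  refine step1.trans ?_
  calc ∑ t ∈ Icc 1 ⌊H⌋₊,
        (((Icc 1 N).filter fun n : ℕ => Tn n (it m n) = t.primeFactors).card : ℝ)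
      ≤ ∑ _t ∈ Icc 1 ⌊H⌋₊,
        Real.exp (368 * m ^ 2 * 2 ^ m * (Real.log N / Real.log (Real.log N))) :=
        Finset.sum_le_sum fun t _ => wirsing_T m N hm hN _
    _ = ⌊H⌋₊ * Real.exp (368 * m ^ 2 * 2 ^ m * (Real.log N / Real.log (Real.log N))) := by
        rw [Finset.sum_const, nsmul_eq_mul, Nat.card_Icc, Nat.add_sub_cancel]
    _ ≤ _ := mul_le_mul_of_nonneg_right (Nat.floor_le (by linarith)) (Real.exp_pos _).le

end Pool.PWS
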