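import Pool.Agent.H38.PWS.Last

/-!
# Everything is generated by the small primes (Wirsing's argument for iterates)

`n_0 = n`, `n_(i+1) = σ n_i`.  If every prime `p` with `p ^ v_p(n) ∤ n_m` is given, and all primes
at most `Y` on all levels, then all other primes on all levels are generated: otherwise, with `D_i`
the part of `n_i` made of the primes which are not generated, `D_(i+1) ∣ σ D_i` cyclically, so
`∏ σ(D_i)/D_i` is an integer larger than `1`, but it is smaller than `2`.
-/

set_option autoImplicit false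

namespace Pool.PWS

open ArithmeticFunction Finset Pool.MKP

lemma le_sigma_pow {z f : ℕ} (hz : z.Prime) : z ^ f ≤ sigma 1 (z ^ f) := by
  rw [sigma_one_apply_prime_pow hz]
  exact Finset.single_le_sum (f := fun k => z ^ k) (fun _ _ => Nat.zero_le _)
    (Finset.self_mem_range_succ f)

lemma lt_sigma_pow {z f : ℕ} (hz : z.Prime) (hf : 1 ≤ f) : z ^ f < sigma 1 (z ^ f) := by
  rw [sigma_one_apply_prime_pow hz, Finset.sum_range_succ]
  have h : z ^ 0 ≤ ∑ k ∈ range f, z ^ k :=
    Finset.single_le_sum (f := fun k => z ^ k) (fun _ _ => Nat.zero_le _)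
      (Finset.mem_range.2 hf)
  rw [pow_zero] at h
  omega

lemma sigma_pow_le_real {z f Y : ℕ} (hz : z.Prime) (hY : 1 ≤ Y) (hYz : Y < z) :
    (sigma 1 (z ^ f) : ℝ) ≤ (1 + 1 / (Y : ℝ)) * ((z ^ f : ℕ) : ℝ) := by
  rw [sigma_one_apply_prime_pow hz]
  push_cast
  have hY' : (1 : ℝ) ≤ Y := by exact_mod_cast hY
  have hz' : (Y : ℝ) + 1 ≤ z := by exact_mod_cast hYz
  have hz1 : (z : ℝ) ≠ 1 := by linarith
  rw [geom_sum_eq hz1, div_le_iff₀ (by linarith)]
  have h1 : (0 : ℝ) < (z : ℝ) ^ f := by
    have : (0 : ℝ) < z := by linarith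
    positivity
  have h2 : (z : ℝ) ≤ (1 + 1 / (Y : ℝ)) * (z - 1) := by
    have h3 : (1 + 1 / (Y : ℝ)) * (z - 1) = z - 1 + (z - 1) / Y := by
      field_simp
    rw [h3]
    have h4 : 1 ≤ ((z : ℝ) - 1) / Y := by
      rw [le_div_iff₀ (by linarith)]
      linarith
    linarith
  calc (z : ℝ) ^ (f + 1) - 1 ≤ (z : ℝ) ^ f * z := by rw [pow_succ]; linarith
    _ ≤ (z : ℝ) ^ f * ((1 + 1 / (Y : ℝ)) * (z - 1)) := mul_le_mul_of_nonneg_left h2 h1.le
    _ = _ := by ring

/-- the part of a number made of the primes in `U` divides the image of the part of the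
previous number -/
lemma part_dvd {a b : ℕ} (ha : a ≠ 0) (U V : Finset ℕ) (hU : U ⊆ a.primeFactors) (g : ℕ → ℕ)
    (hg : ∀ z ∈ V, z.Prime ∧ z ^ g z ∣ b) (hb : b = sigma 1 a)
    (hcl : ∀ z ∈ V, ∀ w ∈ a.primeFactors, z ∣ sigma 1 (w ^ a.factorization w) → w ∈ U) :
    ∏ z ∈ V, z ^ g z ∣ ∏ w ∈ U, sigma 1 (w ^ a.factorization w) := by
  have hprod : b = (∏ w ∈ U, sigma 1 (w ^ a.factorization w)) *
      ∏ w ∈ a.primeFactors \ U, sigma 1 (w ^ a.factorization w) := by
    rw [hb, sigma_prod ha, mul_comm, Finset.prod_sdiff hU]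
  apply Finset.prod_dvd_of_isRelPrime
  · intro x hx y hy hxy
    have h : (x ^ g x).Coprime (y ^ g y) :=
      ((Nat.coprime_primes (hg x hx).1 (hg y hy).1).2 hxy).pow _ _
    exact Nat.coprime_iff_isRelPrime.1 h
  · intro z hz
    have hz1 := (hg z hz).2
    rw [hprod] at hz1
    refine Nat.Coprime.dvd_of_dvd_mul_right ?_ hz1
    apply Nat.Coprime.pow_left
    apply Nat.Coprime.prod_right
    intro w hw
    rw [Finset.mem_sdiff] at hw
    rw [(hg z hz).1.coprime_iff_not_dvd]
    exact fun h => hw.2 (hcl z hz w hw.1 h)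

/-- Every prime of `n` is generated by the primes at most `Y` on all levels, together with the
primes of `n` whose power in `n` does not divide `σ^m n`. -/
theorem gen_small (m n Y : ℕ) (K : ℝ) (hm : 1 ≤ m) (hn : 1 ≤ n) (hY : 1 ≤ Y)
    (hω : ∀ i < m, (((it i n).primeFactors.filter fun z => Y < z).card : ℝ) ≤ K)
    (hK : m * K ≤ 2 / 3 * Y) (G : Finset (ℕ × ℕ))
    (hG : ∀ i < m, ∀ z ∈ (it i n).primeFactors, z ≤ Y → (i, z) ∈ G)
    (hT : ∀ p ∈ n.primeFactors, (0, p) ∉ G → p ^ n.factorization p ∣ it m n) :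
    ∀ p ∈ n.primeFactors, Rch m n G (0, p) := by
  classical
  intro p hp
  by_contra hcon
  obtain ⟨U, hU⟩ : ∃ U : ℕ → Finset ℕ,
      U = fun i => (it i n).primeFactors.filter fun z => ¬ Rch m n G (i, z) := ⟨_, rfl⟩
  obtain ⟨D, hD⟩ : ∃ D : ℕ → ℕ, D = fun i => ∏ z ∈ U i, z ^ (it i n).factorization z := ⟨_, rfl⟩
  obtain ⟨E, hE⟩ : ∃ E : ℕ → ℕ,
      E = fun i => ∏ z ∈ U i, sigma 1 (z ^ (it i n).factorization z) := ⟨_, rfl⟩
  have hUm : ∀ i z, z ∈ U i ↔ z ∈ (it i n).primeFactors ∧ ¬ Rch m n G (i, z) := by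
    intro i z
    rw [hU]
    exact Finset.mem_filter
  have hUY : ∀ i < m, ∀ z ∈ U i, Y < z := by
    intro i hi z hz
    rw [hUm] at hz
    by_contra h
    exact hz.2 (Rch.base (hG i hi z hz.1 (not_lt.1 h)))
  have hUp : ∀ i z, z ∈ U i → z.Prime := fun i z hz =>
    Nat.prime_of_mem_primeFactors ((hUm i z).1 hz).1
  -- closure
  have hcl : ∀ i < m, ∀ w ∈ (it i n).primeFactors, ∀ z : ℕ, z.Prime →
      z ∣ sigma 1 (w ^ (it i n).factorization w) → ¬ Rch m n G (nx m i, z) → w ∈ U i := by
    intro i hi w hw z hz hzd hnr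
    rw [hUm]
    refine ⟨hw, fun hr => hnr (Rch.step hr ?_)⟩
    unfold out
    rw [Finset.mem_image]
    refine ⟨z, ?_, rfl⟩
    rw [Nat.mem_primeFactors]
    refine ⟨hz, hzd, ?_⟩
    exact (sigma_pos' (pow_pos (Nat.prime_of_mem_primeFactors hw).pos _)).ne'
  have hstep : ∀ i, i + 1 < m → D (i + 1) ∣ E i := by
    intro i hi
    rw [hD, hE]
    apply part_dvd (b := it (i + 1) n) (it_pos hn i).ne' (U i) (U (i + 1))
      (fun w hw => ((hUm i w).1 hw).1) (fun z => (it (i + 1) n).factorization z)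
    · exact fun z hz => ⟨hUp _ z hz, Nat.ordProj_dvd _ _⟩
    · exact it_succ i n
    · intro z hz w hw hzd
      apply hcl i (by omega) w hw z (hUp _ z hz) hzd
      have h1 := ((hUm (i + 1) z).1 hz).2
      have h2 : nx m i = i + 1 := by unfold nx; rw [if_neg (by omega)]
      rw [h2]
      exact h1
  have hwrap : ∀ i, i + 1 = m → D 0 ∣ E i := by
    intro i hi
    rw [hD, hE]
    apply part_dvd (b := it (i + 1) n) (it_pos hn i).ne' (U i) (U 0)
      (fun w hw => ((hUm i w).1 hw).1) (fun z => (it 0 n).factorization z)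
    · intro z hz
      refine ⟨hUp _ z hz, ?_⟩
      have h1 := (hUm 0 z).1 hz
      rw [it_zero] at h1 ⊢
      rw [hi]
      exact hT z h1.1 fun h => h1.2 (Rch.base h)
    · exact it_succ i n
    · intro z hz w hw hzd
      apply hcl i (by omega) w hw z (hUp _ z hz) hzd
      have h1 := ((hUm 0 z).1 hz).2
      have h2 : nx m i = 0 := by unfold nx; rw [if_pos hi]
      rw [h2]
      exact h1
  have hdvd : ∏ i ∈ range m, D i ∣ ∏ i ∈ range m, E i := by
    obtain ⟨k, rfl⟩ : ∃ k, m = k + 1 := ⟨m - 1, by omega⟩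
    rw [Finset.prod_range_succ', Finset.prod_range_succ]
    apply mul_dvd_mul
    · apply Finset.prod_dvd_prod_of_dvd
      intro i hi
      exact hstep i (by have := Finset.mem_range.1 hi; omega)
    · exact hwrap k rfl
  have hDpos : ∀ i, 0 < D i := by
    intro i
    rw [hD]
    exact Finset.prod_pos fun z hz => pow_pos (hUp i z hz).pos _
  have hDE : ∀ i, D i ≤ E i := by
    intro i
    rw [hD, hE]
    exact Finset.prod_le_prod' fun z hz => le_sigma_pow (hUp i z hz)
  have hlt : ∏ i ∈ range m, D i < ∏ i ∈ range m, E i := by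
    apply Finset.prod_lt_prod (fun i _ => hDpos i) (fun i _ => hDE i)
    refine ⟨0, Finset.mem_range.2 hm, ?_⟩
    rw [hD, hE]
    apply Finset.prod_lt_prod (fun z hz => pow_pos (hUp 0 z hz).pos _)
      (fun z hz => le_sigma_pow (hUp 0 z hz))
    have hpU : p ∈ U 0 := (hUm 0 p).2 ⟨hp, hcon⟩
    refine ⟨p, hpU, lt_sigma_pow (hUp 0 p hpU) ?_⟩
    rw [it_zero]
    exact (Nat.prime_of_mem_primeFactors hp).factorization_pos_of_dvd (by omega)
      (Nat.dvd_of_mem_primeFactors hp)
  have hY0 : (0 : ℝ) < Y := by exact_mod_cast hY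
  have hEle : ∀ i < m, (E i : ℝ) ≤ (1 + 1 / (Y : ℝ)) ^ (U i).card * D i := by
    intro i hi
    rw [hD, hE]
    push_cast
    rw [← Finset.prod_const, ← Finset.prod_mul_distrib]
    apply Finset.prod_le_prod (fun z _ => Nat.cast_nonneg _)
    intro z hz
    have := sigma_pow_le_real (f := (it i n).factorization z) (hUp i z hz) hY (hUY i hi z hz)
    push_cast at this
    exact this
  have hUcard : ∀ i < m, ((U i).card : ℝ) ≤ K := by
    intro i hi
    refine le_trans ?_ (hω i hi)
    have : (U i).card ≤ ((it i n).primeFactors.filter fun z => Y < z).card := by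
      apply Finset.card_le_card
      intro z hz
      rw [Finset.mem_filter]
      exact ⟨((hUm i z).1 hz).1, hUY i hi z hz⟩
    exact_mod_cast this
  have hbound : ((∏ i ∈ range m, E i : ℕ) : ℝ) < 2 * ((∏ i ∈ range m, D i : ℕ) : ℝ) := by
    have hDp : (0 : ℝ) < ((∏ i ∈ range m, D i : ℕ) : ℝ) := by
      exact_mod_cast Finset.prod_pos fun i _ => hDpos i
    have h1 : ((∏ i ∈ range m, E i : ℕ) : ℝ) ≤
        Real.exp (2 / 3) * ((∏ i ∈ range m, D i : ℕ) : ℝ) := by
      push_cast
      calc ∏ i ∈ range m, (E i : ℝ)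
          ≤ ∏ i ∈ range m, ((1 + 1 / (Y : ℝ)) ^ (U i).card * D i) :=
            Finset.prod_le_prod (fun i _ => Nat.cast_nonneg _)
              fun i hi => hEle i (Finset.mem_range.1 hi)
        _ = (∏ i ∈ range m, (1 + 1 / (Y : ℝ)) ^ (U i).card) * ∏ i ∈ range m, (D i : ℝ) :=
            Finset.prod_mul_distrib
        _ ≤ Real.exp (2 / 3) * ∏ i ∈ range m, (D i : ℝ) := by
            apply mul_le_mul_of_nonneg_right _ (Finset.prod_nonneg fun i _ => Nat.cast_nonneg _)
            calc ∏ i ∈ range m, (1 + 1 / (Y : ℝ)) ^ (U i).card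
                ≤ ∏ _i ∈ range m, Real.exp (K / Y) := by
                  apply Finset.prod_le_prod (fun i _ => by positivity)
                  intro i hi
                  calc (1 + 1 / (Y : ℝ)) ^ (U i).card ≤ Real.exp (1 / Y) ^ (U i).card := by
                        apply pow_le_pow_left₀ (by positivity)
                        have := Real.add_one_le_exp (1 / (Y : ℝ))
                        linarith
                    _ = Real.exp ((U i).card * (1 / Y)) := by rw [← Real.exp_nat_mul]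
                    _ ≤ Real.exp (K / Y) := by
                        apply Real.exp_le_exp.2
                        rw [mul_one_div]
                        exact div_le_div_of_nonneg_right (hUcard i (Finset.mem_range.1 hi)) hY0.le
              _ = Real.exp (m * (K / Y)) := by
                  rw [Finset.prod_const, Finset.card_range, ← Real.exp_nat_mul]
              _ ≤ Real.exp (2 / 3) := by
                  apply Real.exp_le_exp.2
                  rw [mul_div_assoc', div_le_iff₀ hY0]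
                  exact hK
    have h2 : Real.exp (2 / 3) < 2 := by
      have h3 : Real.exp (2 / 3) < Real.exp (Real.log 2) := by
        apply Real.exp_lt_exp.2
        have := Real.log_two_gt_d9
        linarith
      rwa [Real.exp_log (by norm_num)] at h3
    nlinarith
  obtain ⟨c, hc⟩ := hdvd
  have hbound' : ∏ i ∈ range m, E i < 2 * ∏ i ∈ range m, D i := by exact_mod_cast hbound
  have hDp : 0 < ∏ i ∈ range m, D i := Finset.prod_pos fun i _ => hDpos i
  rw [hc] at hbound' hlt
  have hc2 : c < 2 := by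
    by_contra h
    have h1 : 2 ≤ c := not_lt.1 h
    have h2 := Nat.mul_le_mul_left (∏ i ∈ range m, D i) h1
    omega
  have hc1 : c ≤ 1 := by omega
  have h3 := Nat.mul_le_mul_left (∏ i ∈ range m, D i) hc1
  omega

end Pool.PWS
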